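import Pool.Agent.PJC.Stmts

/-!
# Squad PJC, row SID: the two sides
-/

set_option autoImplicit false

namespace Pool.Agent.PJC.H3

variable {n : ℕ}

theorem q_le {p q : Seminorm ℝ (Eu n)} (h : IsDual p q) (h1 : ∀ v, ‖v‖ ≤ p v) (f : Eu n) :
    q f ≤ ‖f‖ := by
  obtain ⟨v, hv, hf⟩ := h.exP f
  rw [← hf]
  calc inner ℝ f v ≤ ‖f‖ * ‖v‖ := real_inner_le_norm f v
    _ ≤ ‖f‖ * 1 := mul_le_mul_of_nonneg_left ((h1 v).trans hv) (norm_nonneg f)
    _ = ‖f‖ := mul_one _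

theorem le_q {p q : Seminorm ℝ (Eu n)} (h : IsDual p q) (h2 : ∀ v, p v ≤ √n * ‖v‖) (f : Eu n) :
    ‖f‖ ≤ √n * q f := by
  rcases eq_or_lt_of_le (norm_nonneg f) with h0 | h0
  · rw [← h0]
    exact mul_nonneg (Real.sqrt_nonneg _) (apply_nonneg q f)
  · have h3 : ‖f‖ * ‖f‖ ≤ (√n * q f) * ‖f‖ := by
      calc ‖f‖ * ‖f‖ = inner ℝ f f := (real_inner_self_eq_norm_mul_norm f).symm
        _ ≤ q f * p f := h.le f f
        _ ≤ q f * (√n * ‖f‖) := mul_le_mul_of_nonneg_left (h2 f) (apply_nonneg q f)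
        _ = (√n * q f) * ‖f‖ := by ring
    exact le_of_mul_le_mul_right h3 h0

theorem ex_one {c : ℝ} (hn : 1 ≤ n) (hc : 0 < c) {q : Seminorm ℝ (Eu n)}
    (hq : ∀ f, c * ‖f‖ ≤ q f) : ∃ t, q t = 1 := by
  have : Nonempty (Fin n) := ⟨⟨0, hn⟩⟩
  have : Nontrivial (Eu n) := by
    unfold Eu
    infer_instance
  obtain ⟨x, hx⟩ := exists_ne (0 : Eu n)
  have h1 : 0 < q x := lt_of_lt_of_le (mul_pos hc (norm_pos_iff.2 hx)) (hq x)
  refine ⟨(q x)⁻¹ • x, ?_⟩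
  rw [map_smul_eq_mul, Real.norm_eq_abs, abs_of_pos (inv_pos.2 h1), inv_mul_cancel₀ h1.ne']

theorem abs_inner_le {p q : Seminorm ℝ (Eu n)} (h : IsDual p q) (f v : Eu n) :
    |inner ℝ f v| ≤ q f * p v := by
  rw [abs_le]
  constructor
  · have h1 := h.le (-f) v
    rw [inner_neg_left, map_neg_eq_map] at h1
    linarith
  · exact h.le f v

theorem side (hKER : KerStmt) (hREW : RewStmt) (hSTA : StaStmt) (hn : 1 ≤ n)
    {p q : Seminorm ℝ (Eu n)} {c ε d : ℝ} (hc : 0 < c) (h1 : ∀ v, c * ‖v‖ ≤ p v)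
    (h2 : ∀ f, c * ‖f‖ ≤ q f) (h : IsDual p q) (e0 : 0 < ε) (e1 : ε < 1) (hB : Bad ε p q)
    (hd : 0 < d) (h3 : ∀ x, q x = 1 → ‖x‖ ≤ √n) (h4 : ∀ x, p x ≤ 1 → ‖x‖ ≤ 1) :
    ∃ s : Side n, s.Good {x | q x = 1} ε d ∧ ∀ a i, p (s.v a i) ≤ 1 := by
  refine hSTA n p q ε d h hd h3 h4 (ex_one hn hc h2) ?_
  intro t ht
  obtain ⟨N, w, g, y, s, hk⟩ := hKER n p q c ε hc h1 h2 h e0 e1 hB t ht
  obtain ⟨t', v, w', e, k, hl⟩ := hREW n N p q ε h e0 e1 t ht w g y s hk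
  exact ⟨N, w', t', v, e, k, hl⟩

theorem sid (hKER : KerStmt) (hREW : RewStmt) (hSTA : StaStmt) (hSWP : SwpStmt) : SidStmt := by
  intro n p q ε d hn h hp1 hp2 e0 e1 hB hd
  have hn0 : (1 : ℝ) ≤ √n := by
    rw [Real.one_le_sqrt]
    exact_mod_cast hn
  have hs0 : (0 : ℝ) < √n := lt_of_lt_of_le one_pos hn0
  have hc : (0 : ℝ) < 1 / √n := by positivity
  have hc1 : (1 : ℝ) / √n ≤ 1 := by
    rw [div_le_one hs0]
    exact hn0
  have hcn : ∀ v : Eu n, 1 / √n * ‖v‖ ≤ ‖v‖ := fun v => by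
    calc 1 / √n * ‖v‖ ≤ 1 * ‖v‖ := mul_le_mul_of_nonneg_right hc1 (norm_nonneg v)
      _ = ‖v‖ := one_mul _
  have hqn := le_q h hp2
  obtain ⟨s, hs, hs'⟩ := side hKER hREW hSTA hn hc (fun v => (hcn v).trans (hp1 v))
    (fun f => by
      rw [one_div, inv_mul_le_iff₀ hs0]
      exact hqn f) h e0 e1 hB hd
    (fun x hx => by
      have h5 := hqn x
      rw [hx, mul_one] at h5
      exact h5)
    (fun x hx => (hp1 x).trans hx)
  obtain ⟨P, Q, hP, hQ, hPQ, hB'⟩ := hSWP n p q ε hn h hB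
  obtain ⟨r, hr, hr'⟩ := side (p := P) (q := Q) hKER hREW hSTA hn hc
    (fun v => by
      rw [hP]
      exact (hcn v).trans (hqn v))
    (fun f => by
      rw [hQ, one_div, inv_mul_eq_div]
      exact div_le_div_of_nonneg_right (hp1 f) hs0.le)
    hPQ e0 e1 hB' hd
    (fun x hx => by
      rw [hQ, div_eq_one_iff_eq hs0.ne'] at hx
      rw [← hx]
      exact hp1 x)
    (fun x hx => by
      rw [hP] at hx
      exact (hqn x).trans hx)
  refine ⟨s, r, {x | q x = 1}, {x | Q x = 1}, hs, hr, ?_, ?_⟩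
  · intro x hx z hz
    have hx' : q x = 1 := hx
    have hz' : p z = √n := by
      have h6 : Q z = 1 := hz
      rw [hQ, div_eq_one_iff_eq hs0.ne'] at h6
      exact h6
    have h7 := abs_inner_le h x z
    rw [hx', hz', one_mul] at h7
    exact h7
  · intro a i b j
    have h8 : q (r.v b j) ≤ 1 / √n := by
      have h9 := hr' b j
      rw [hP] at h9
      rw [le_div_iff₀ hs0, mul_comm]
      exact h9
    rw [real_inner_comm]
    calc |inner ℝ (r.v b j) (s.v a i)| ≤ q (r.v b j) * p (s.v a i) := abs_inner_le h _ _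
      _ ≤ (1 / √n) * 1 := mul_le_mul h8 (hs' a i) (apply_nonneg p _) hc.le
      _ = 1 / √n := mul_one _

end Pool.Agent.PJC.H3
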